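import Pool.Agent.LPW.StmtsF

/-! LPW, row CHG (helper82): the characteristic polynomial of `w` modulo `f`, with degrees. -/

set_option autoImplicit false

namespace Pool.Agent.LPW.H82

open Polynomial

section Filt

variable {R : Type} [CommRing R] {F : ℕ → AddSubgroup R}

/-- all coefficients of `p` are in `F a` -/
def PF (F : ℕ → AddSubgroup R) (a : ℕ) (p : R[X]) : Prop := ∀ l, p.coeff l ∈ F a

theorem pf_mono (hm : Monotone F) {a b : ℕ} (hab : a ≤ b) {p : R[X]} (hp : PF F a p) :
    PF F b p := fun l => hm hab (hp l)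

theorem pf_add {a : ℕ} {p q : R[X]} (hp : PF F a p) (hq : PF F a q) : PF F a (p + q) := fun l => by
  rw [coeff_add]
  exact (F a).add_mem (hp l) (hq l)

theorem pf_sub {a : ℕ} {p q : R[X]} (hp : PF F a p) (hq : PF F a q) : PF F a (p - q) := fun l => by
  rw [coeff_sub]
  exact (F a).sub_mem (hp l) (hq l)

theorem pf_zero {a : ℕ} : PF F a (0 : R[X]) := fun l => by
  rw [coeff_zero]
  exact (F a).zero_mem

theorem pf_sum {ι : Type} {a : ℕ} (s : Finset ι) (p : ι → R[X]) (hp : ∀ i ∈ s, PF F a (p i)) :
    PF F a (∑ i ∈ s, p i) := fun l => by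
  rw [finsetSum_coeff]
  exact (F a).sum_mem fun i hi => hp i hi l

theorem pf_mul (hmul : ∀ a b x y, x ∈ F a → y ∈ F b → x * y ∈ F (a + b)) {a b : ℕ} {p q : R[X]}
    (hp : PF F a p) (hq : PF F b q) : PF F (a + b) (p * q) := fun l => by
  rw [coeff_mul]
  exact (F (a + b)).sum_mem fun i _ => hmul a b _ _ (hp _) (hq _)

theorem pf_one (h1 : (1 : R) ∈ F 0) : PF F 0 (1 : R[X]) := fun l => by
  rw [coeff_one]
  split_ifs
  · exact h1
  · exact (F 0).zero_mem

theorem pf_prod {ι : Type} (h1 : (1 : R) ∈ F 0)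
    (hmul : ∀ a b x y, x ∈ F a → y ∈ F b → x * y ∈ F (a + b)) {a : ℕ} (s : Finset ι)
    (p : ι → R[X]) (hp : ∀ i ∈ s, PF F a (p i)) : PF F (s.card * a) (∏ i ∈ s, p i) := by
  classical
  induction s using Finset.induction_on with
  | empty =>
    rw [Finset.prod_empty, Finset.card_empty, zero_mul]
    exact pf_one h1
  | insert i s hi ih =>
    rw [Finset.prod_insert hi, Finset.card_insert_of_notMem hi, add_mul, one_mul, add_comm]
    exact pf_mul hmul (hp i (Finset.mem_insert_self i s))
      (ih fun j hj => hp j (Finset.mem_insert_of_mem hj))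

theorem pf_X_pow (hm : Monotone F) (h1 : (1 : R) ∈ F 0) (a k : ℕ) : PF F a (X ^ k : R[X]) :=
  fun l => by
  rw [coeff_X_pow]
  split_ifs
  · exact hm (Nat.zero_le a) h1
  · exact (F a).zero_mem

/-- the coefficients of a determinant -/
theorem pf_det (h1 : (1 : R) ∈ F 0)
    (hmul : ∀ a b x y, x ∈ F a → y ∈ F b → x * y ∈ F (a + b)) {a n : ℕ}
    (M : Matrix (Fin n) (Fin n) R[X]) (hM : ∀ i j, PF F a (M i j)) : PF F (n * a) M.det := by
  rw [Matrix.det_apply]
  refine pf_sum _ _ fun σ _ => ?_
  have h := pf_prod (F := F) h1 hmul Finset.univ (fun i => M (σ i) i) (fun i _ => hM _ _)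
  rw [Finset.card_univ, Fintype.card_fin] at h
  rcases Int.units_eq_one_or (Equiv.Perm.sign σ) with hs | hs
  · rw [hs, one_smul]
    exact h
  · rw [hs]
    intro l
    rw [Units.neg_smul, one_smul, coeff_neg]
    exact (F (n * a)).neg_mem (h l)

end Filt

/-- The matrix of the multiplication by `w` modulo `f`. -/
noncomputable def mm {R : Type} [CommRing R] (f w : R[X]) (n : ℕ) : Matrix (Fin n) (Fin n) R :=
  Matrix.of fun i k => ((X ^ (k : ℕ) * w) %ₘ f).coeff i

section

variable {R : Type} [CommRing R] {f w : R[X]} {n : ℕ}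

theorem mod_eq_sum (hf : f.Monic) (hn : f.natDegree = n) (hn0 : 0 < n) (p : R[X]) :
    p %ₘ f = ∑ i : Fin n, C ((p %ₘ f).coeff i) * X ^ (i : ℕ) := by
  have h1 : (p %ₘ f).natDegree < n := by
    rw [← hn]
    refine natDegree_modByMonic_lt p hf ?_
    rintro rfl
    rw [natDegree_one] at hn
    omega
  conv_lhs => rw [as_sum_range' (p %ₘ f) n h1]
  rw [Fin.sum_univ_eq_sum_range (fun i => C ((p %ₘ f).coeff i) * X ^ i)]
  refine Finset.sum_congr rfl fun i _ => ?_
  rw [← C_mul_X_pow_eq_monomial]

/-- step of the computation of `X ^ k` modulo `f` -/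
theorem step {F : ℕ → AddSubgroup R} (hm : Monotone F)
    (hmul : ∀ a b x y, x ∈ F a → y ∈ F b → x * y ∈ F (a + b))
    (hf : f.Monic) (hn : f.natDegree = n) (hn0 : 0 < n) {a D : ℕ} (hfD : ∀ j, f.coeff j ∈ F D)
    (p : R[X]) (hp : PF F a (p %ₘ f)) : PF F (a + D) ((X * p) %ₘ f) := by
  have hR : Nontrivial R := by
    by_contra h
    rw [not_nontrivial_iff_subsingleton] at h
    have : f = 0 := Subsingleton.elim _ _
    rw [this, natDegree_zero] at hn
    omega
  obtain ⟨r, hr⟩ : ∃ r, r = p %ₘ f := ⟨_, rfl⟩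
  have h1 : r.natDegree < n := by
    rw [← hn, hr]
    refine natDegree_modByMonic_lt p hf ?_
    rintro rfl
    rw [natDegree_one] at hn
    omega
  have h2 : (X * p) %ₘ f = X * r - C (r.coeff (n - 1)) * f := by
    have h3 : X * p = (X * r - C (r.coeff (n - 1)) * f) +
        f * (X * (p /ₘ f) + C (r.coeff (n - 1))) := by
      have h4 := modByMonic_add_div p f
      rw [← hr] at h4
      conv_lhs => rw [← h4]
      ring
    have h5 : (X * r - C (r.coeff (n - 1)) * f).degree < f.degree := by
      rw [degree_eq_natDegree hf.ne_zero, hn, degree_lt_iff_coeff_zero]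
      intro l hl
      rw [coeff_sub, coeff_C_mul]
      obtain ⟨l', rfl⟩ : ∃ l', l = l' + 1 := ⟨l - 1, by omega⟩
      rw [coeff_X_mul]
      rcases Nat.eq_or_lt_of_le hl with h6 | h6
      · rw [← h6, ← hn, hf.coeff_natDegree, mul_one, hn, h6, Nat.add_sub_cancel, sub_self]
      · rw [coeff_eq_zero_of_natDegree_lt (by omega : r.natDegree < l'),
          coeff_eq_zero_of_natDegree_lt (by omega : f.natDegree < l' + 1), mul_zero, sub_zero]
    exact ((div_modByMonic_unique _ _ hf ⟨by rw [← h3], h5⟩).2)
  rw [h2]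
  refine pf_sub (pf_mono hm (Nat.le_add_right a D) ?_) ?_
  · intro l
    rcases l with _ | l
    · rw [coeff_X_mul_zero]
      exact (F a).zero_mem
    · rw [coeff_X_mul, hr]
      exact hp l
  · intro l
    rw [coeff_C_mul, hr]
    exact hmul a D _ _ (hp _) (hfD _)

end

theorem chg : ChgStmt := by
  classical
  intro R _ F hm h1 hmul n D f w hf hn hfD hwd hwD
  rcases Nat.eq_zero_or_pos n with hn0 | hn0
  · subst hn0
    have hf1 : f = 1 := hf.natDegree_eq_zero.1 hn
    subst hf1
    refine ⟨1, monic_one, natDegree_one, ?_, one_dvd _, ?_⟩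
    · intro l
      rw [zero_mul]
      exact pf_one h1 l
    · intro S _ _ φ θ _ _
      simp
  have hR : Nontrivial R := by
    by_contra h
    rw [not_nontrivial_iff_subsingleton] at h
    have : f = 0 := Subsingleton.elim _ _
    rw [this, natDegree_zero] at hn
    omega
  obtain ⟨W, hW⟩ : ∃ W, W = mm f w n := ⟨_, rfl⟩
  -- the defining congruence
  have hmod : ∀ k : Fin n, X ^ (k : ℕ) * w = (∑ i : Fin n, C (W i k) * X ^ (i : ℕ)) +
      f * ((X ^ (k : ℕ) * w) /ₘ f) := by
    intro k
    have h2 := modByMonic_add_div (X ^ (k : ℕ) * w) f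
    rw [mod_eq_sum hf hn hn0 (X ^ (k : ℕ) * w)] at h2
    rw [hW]
    exact h2.symm
  -- the entries
  have hpow : ∀ l k : ℕ, k < n → PF F (l * D) ((X ^ (k + l)) %ₘ f) := by
    intro l
    induction l with
    | zero =>
      intro k hk
      rw [add_zero, zero_mul]
      have h2 : (X ^ k : R[X]) %ₘ f = X ^ k := by
        rw [modByMonic_eq_self_iff hf, degree_X_pow, degree_eq_natDegree hf.ne_zero, hn]
        exact_mod_cast hk
      rw [h2]
      exact pf_X_pow hm h1 0 k
    | succ l ih =>
      intro k hk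
      have h2 : (X ^ (k + (l + 1)) : R[X]) = X * X ^ (k + l) := by
        rw [← pow_succ']
        rfl
      rw [h2, add_mul, one_mul]
      exact step hm hmul hf hn hn0 hfD _ (ih k hk)
  have hWF : ∀ i k, W i k ∈ F (D + D * D) := by
    intro i k
    rw [hW]
    show ((X ^ (k : ℕ) * w) %ₘ f).coeff i ∈ _
    have h2 : (X ^ (k : ℕ) * w) %ₘ f =
        ∑ l ∈ Finset.range (D + 1), C (w.coeff l) * ((X ^ ((k : ℕ) + l)) %ₘ f) := by
      conv_lhs => rw [as_sum_range_C_mul_X_pow' w (Nat.lt_succ_of_le hwd)]
      rw [Finset.mul_sum]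
      have h3 : ∀ (s : Finset ℕ) (q : ℕ → R[X]), (∑ l ∈ s, q l) %ₘ f = ∑ l ∈ s, (q l %ₘ f) := by
        intro s q
        induction s using Finset.induction_on with
        | empty => simp
        | insert a s ha ih => rw [Finset.sum_insert ha, Finset.sum_insert ha, add_modByMonic, ih]
      rw [h3]
      refine Finset.sum_congr rfl fun l _ => ?_
      have h4 : X ^ (k : ℕ) * (C (w.coeff l) * X ^ l) = w.coeff l • (X ^ ((k : ℕ) + l) : R[X]) := by
        rw [smul_eq_C_mul, pow_add]
        ring
      rw [h4, smul_modByMonic, smul_eq_C_mul]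
    rw [h2, finsetSum_coeff]
    refine (F _).sum_mem fun l hl => ?_
    rw [coeff_C_mul]
    have h5 : D + l * D ≤ D + D * D :=
      Nat.add_le_add_left (Nat.mul_le_mul_right D (Nat.lt_succ_iff.1 (Finset.mem_range.1 hl))) D
    exact hm h5 (hmul D (l * D) _ _ (hwD l) (hpow l k k.2 i))
  refine ⟨W.charpoly, W.charpoly_monic, ?_, ?_, ?_, ?_⟩
  · rw [Matrix.charpoly_natDegree_eq_dim, Fintype.card_fin]
  · unfold Matrix.charpoly
    refine pf_det h1 hmul _ fun i j => ?_
    rw [Matrix.charmatrix_apply]
    refine pf_sub ?_ ?_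
    · rw [Matrix.diagonal_apply]
      split_ifs
      · have := pf_X_pow (F := F) hm h1 (D + D * D) 1
        rwa [pow_one] at this
      · exact pf_zero
    · intro l
      rw [coeff_C]
      split_ifs
      · exact hWF i j
      · exact (F _).zero_mem
  · -- Cayley and Hamilton
    let Φ := (algebraMap R (AdjoinRoot f)).mapMatrix (m := Fin n)
    let v : Fin n → AdjoinRoot f := fun k => AdjoinRoot.mk f (X ^ (k : ℕ))
    have hv : Matrix.vecMul v (Φ W) = AdjoinRoot.mk f w • v := by
      funext k
      show ∑ i, v i * algebraMap R (AdjoinRoot f) (W i k) = AdjoinRoot.mk f w * v k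
      have h2 := congrArg (AdjoinRoot.mk f) (hmod k)
      rw [map_mul, map_add, map_mul (AdjoinRoot.mk f) f, AdjoinRoot.mk_self, zero_mul, add_zero,
        map_sum] at h2
      rw [mul_comm (AdjoinRoot.mk f w)]
      show _ = AdjoinRoot.mk f (X ^ (k : ℕ)) * AdjoinRoot.mk f w
      rw [h2]
      refine Finset.sum_congr rfl fun i _ => ?_
      rw [map_mul, mul_comm]
      rfl
    have hp : ∀ p : R[X], Matrix.vecMul v (Φ (aeval W p)) = (AdjoinRoot.mk f (p.comp w)) • v := by
      intro p
      induction p using Polynomial.induction_on with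
      | C a =>
        rw [aeval_C, C_comp]
        have h2 : Φ (algebraMap R (Matrix (Fin n) (Fin n) R) a) =
            algebraMap R (AdjoinRoot f) a • (1 : Matrix (Fin n) (Fin n) (AdjoinRoot f)) := by
          ext i j
          show algebraMap R (AdjoinRoot f) (algebraMap R (Matrix (Fin n) (Fin n) R) a i j) =
            algebraMap R (AdjoinRoot f) a * (1 : Matrix (Fin n) (Fin n) (AdjoinRoot f)) i j
          rw [Matrix.algebraMap_matrix_apply, Matrix.one_apply]
          split_ifs
          · rw [mul_one]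
            rfl
          · rw [map_zero, mul_zero]
        rw [h2, Matrix.vecMul_smul, Matrix.vecMul_one]
        rfl
      | add p q hp hq =>
        rw [map_add, map_add, Matrix.vecMul_add, hp, hq, add_comp, map_add, add_smul]
      | monomial m a h =>
        have e : (C a * X ^ (m + 1)).comp w = (C a * X ^ m).comp w * w := by
          rw [pow_succ, ← mul_assoc, mul_comp, X_comp]
        have e2 : Φ (aeval W (C a * X ^ (m + 1))) = Φ (aeval W (C a * X ^ m)) * Φ W := by
          rw [pow_succ, ← mul_assoc, map_mul, aeval_X, map_mul]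
        rw [e, e2, ← Matrix.vecMul_vecMul, h, Matrix.smul_vecMul, hv, map_mul, smul_smul]
    have h2 := hp W.charpoly
    rw [Matrix.aeval_self_charpoly, map_zero, Matrix.vecMul_zero] at h2
    have h3 := congrFun h2 ⟨0, hn0⟩
    have h4 : AdjoinRoot.mk f (W.charpoly.comp w) * AdjoinRoot.mk f (X ^ 0) = 0 := h3.symm
    rw [pow_zero, map_one, mul_one, AdjoinRoot.mk_eq_zero] at h4
    exact h4
  · intro S _ _ φ θ hθ hfθ
    rw [← Matrix.charpoly_map]
    obtain ⟨V, hV⟩ : ∃ V, V = Matrix.vandermonde θ := ⟨_, rfl⟩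
    have hdet : V.det ≠ 0 := by
      rw [hV]
      exact Matrix.det_vandermonde_ne_zero_iff.2 hθ
    have hroot : ∀ j, (f.map φ).eval (θ j) = 0 := by
      intro j
      rw [hfθ, eval_prod]
      refine Finset.prod_eq_zero (Finset.mem_univ j) ?_
      rw [eval_sub, eval_X, eval_C, sub_self]
    have hVW : V * W.map φ = Matrix.diagonal (fun j => (w.map φ).eval (θ j)) * V := by
      ext j k
      rw [Matrix.mul_apply, Matrix.diagonal_mul, hV, Matrix.vandermonde_apply]
      have h2 := congrArg (fun p : R[X] => (p.map φ).eval (θ j)) (hmod k)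
      simp only [Polynomial.map_mul, Polynomial.map_pow, Polynomial.map_add, Polynomial.map_sum,
        map_X, map_C, eval_mul, eval_pow, eval_add, eval_finsetSum, eval_X, eval_C, hroot,
        zero_mul, add_zero] at h2
      rw [mul_comm ((w.map φ).eval (θ j)), h2]
      refine Finset.sum_congr rfl fun i _ => ?_
      rw [Matrix.vandermonde_apply, Matrix.map_apply, mul_comm]
    have hch : V.map C * (W.map φ).charmatrix =
        (Matrix.diagonal (fun j => (w.map φ).eval (θ j))).charmatrix * V.map C := by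
      unfold Matrix.charmatrix
      rw [mul_sub, sub_mul]
      have h3 : V.map C * (C.mapMatrix (W.map φ)) =
          C.mapMatrix (Matrix.diagonal (fun j => (w.map φ).eval (θ j))) * V.map C := by
        have h4 := congrArg (fun M => (C : S →+* S[X]).mapMatrix M) hVW
        simp only [map_mul] at h4
        exact h4
      rw [h3]
      congr 1
      rw [Matrix.scalar_comm]
      intro r
      exact Commute.all _ _
    have h5 := congrArg Matrix.det hch
    rw [Matrix.det_mul, Matrix.det_mul] at h5
    have h6 : (V.map C).det = C V.det := (RingHom.map_det C V).symm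
    rw [h6, mul_comm] at h5
    have h7 : (C V.det : S[X]) ≠ 0 := C_ne_zero.2 hdet
    have h8 := mul_right_cancel₀ h7 h5
    show (W.map φ).charmatrix.det = _
    rw [h8]
    have h9 : (Matrix.diagonal (fun j => (w.map φ).eval (θ j))).charmatrix =
        Matrix.diagonal (fun j => X - C ((w.map φ).eval (θ j))) := by
      ext i j : 2
      rw [Matrix.charmatrix_apply, Matrix.diagonal_apply, Matrix.diagonal_apply,
        Matrix.diagonal_apply]
      split_ifs
      · rfl
      · rw [map_zero, sub_zero]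
    rw [h9, Matrix.det_diagonal]

end Pool.Agent.LPW.H82
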